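import Pool.Agent.helper81.PL.SpecA

/-!
# bs:INP. Reading the input word
-/

set_option autoImplicit false
set_option linter.dupNamespace false
set_option linter.unusedVariables false

namespace Pool.Agent.helper81.PL

open Pool.Agent.helper62 Prog Function

/-- the body for the symbol `false` -/
def INP_f : Prog ℕ := .seq (.push 0 false) (.push 0 true)

/-- the body for the symbol `true` -/
def INP_t : Prog ℕ := .seq (.push 0 false) (.seq (.push 0 false) (.seq (.push 0 true) (.push 0 true)))

theorem INP_cd_nil : cd ([] : List Bool) = [false] := rfl

theorem INP_cd_false (l : List Bool) : cd (false :: l) = true :: false :: cd l := rfl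

theorem INP_cd_true (l : List Bool) : cd (true :: l) = true :: true :: false :: false :: cd l := rfl

theorem INP_loop : ∀ (u v : List Bool) (S : ℕ → List Bool), S 1 = u → S 0 = cd v →
    Runs (.loop 1 INP_f INP_t) S (update (update S 1 []) 0 (cd (u.reverse ++ v)))
      (5 * u.length + 1) := by
  intro u
  induction u with
  | nil =>
    intro v S h1 h0
    have e : update (update S 1 []) 0 (cd (([] : List Bool).reverse ++ v)) = S := by
      rw [← h1, update_eq_self, h1, List.reverse_nil, List.nil_append, ← h0, update_eq_self]
    rw [e]
    exact Runs.loop_nil h1
  | cons b u ih =>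
    intro v S h1 h0
    have hb : Runs (if b then INP_t else INP_f) (update S 1 u)
        (update (update S 1 u) 0 (cd (b :: v))) 4 := by
      have h2 : (update S 1 u) 0 = cd v := by
        rw [update_of_ne (by decide)]; exact h0
      cases b
      · have h3 := Runs.seq (Runs.push 0 false (update S 1 u))
          (Runs.push 0 true (update (update S 1 u) 0 (false :: (update S 1 u) 0)))
        rw [update_self, update_idem, h2] at h3
        exact h3.mono (by decide)
      · have h3 := Runs.seq (Runs.push 0 false (update S 1 u))
          (Runs.seq (Runs.push 0 false _) (Runs.seq (Runs.push 0 true _) (Runs.push 0 true _)))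
        simp only [update_self, update_idem, h2] at h3
        exact h3.mono (by decide)
    have h4 := ih (b :: v) (update (update S 1 u) 0 (cd (b :: v)))
      (by rw [update_of_ne (by decide), update_self]) (by rw [update_self])
    have e : update (update (update (update S 1 u) 0 (cd (b :: v))) 1 []) 0
        (cd (u.reverse ++ b :: v)) = update (update S 1 []) 0 (cd ((b :: u).reverse ++ v)) := by
      rw [List.reverse_cons, List.append_assoc, List.singleton_append]
      funext j
      by_cases hj : j = 0
      · subst hj; simp
      · by_cases hj' : j = 1
        · subst hj'; simp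
        · simp [update_of_ne hj, update_of_ne hj']
    rw [e] at h4
    refine (Runs.loop_cons h1 hb h4).mono ?_
    rw [List.length_cons]
    omega

theorem INP : INP_stmt := by
  refine ⟨.seq (pour 0 1) (.seq (.push 0 false) (.loop 1 INP_f INP_t)), 7, fun w => ?_⟩
  have h1 := Runs.pour (k := 0) (k' := 1) (by decide) w (update (fun _ => []) 0 w) (by rw [update_self])
  set S1 : ℕ → List Bool := update (update (update (fun _ => []) 0 w) 0 []) 1
    (w.reverse ++ (update (fun _ => []) 0 w : ℕ → List Bool) 1) with hS1
  have h2 := Runs.push 0 false S1
  have h3 := INP_loop w.reverse [] (update S1 0 (false :: S1 0))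
    (by rw [update_of_ne (by decide), hS1, update_self, update_of_ne (by decide), List.append_nil])
    (by rw [update_self, hS1, update_of_ne (by decide), update_self]; rfl)
  refine ((Runs.seq h1 (Runs.seq h2 h3)).mono' ?_ ?_)
  · rw [List.reverse_reverse, List.append_nil]
    funext j
    by_cases hj : j = 0
    · subst hj; simp
    · by_cases hj' : j = 1
      · subst hj'; simp
      · simp [update_of_ne hj, update_of_ne hj', hS1]
  · rw [List.length_reverse]
    omega

end Pool.Agent.helper81.PL
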